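import Pool.Agent.P.MP_bebcd6_lc.Logic
import Pool.Agent.P.MP_bebcd6_lc.Interp
import Pool.Agent.P.MP_bebcd6_lc.CaseT
import Pool.Agent.P.MP_bebcd6_lc.Cases
import Pool.Agent.P.MP_bebcd6_lc.WildInt

namespace Pool.Agent.Results.MP_bebcd6_lc.WildUndecidable

open Pool.Agent.P.MP_bebcd6_lc

theorem result (k A : Type) [Field k] [Ring A] [Algebra k A] [FiniteDimensional k A]
    (hw : Wild k A) (e : A → ℕ) (he : Function.Injective e) :
    ¬ ComputablePred fun m : ℕ => ∃ p ∈ theory A, p.code e = m := by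
  obtain ⟨d, ψ, h1, h2⟩ := wild_internal hw
  exact undecidable_of_interp A e he
    (interp_of_lfam fun g => lfam_of_tdata ψ h1 (tdata_of_h2 ψ h2) g)

end Pool.Agent.Results.MP_bebcd6_lc.WildUndecidable
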